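import Pool.Agent.H25.CP.Main

/-!
# Monochromatic cycle partitions under a minimum degree condition: a uniform lower bound

The question is whether `cp_r(δ) ≤ K r ⌈r / log (1/δ)⌉` with an absolute constant `K`, for all `r ≥ 2` and `δ ∈ (0, 1/2)`. It is
known that this holds with an additional factor `log r` on the right.

We show that the answer is no, for every large number `r` of colours, and that the loss is unbounded at an explicit rate:
`cp_r(δ) ≥ r² / (3200 (log log (16/δ))²)` in the whole range `log r ≥ 1500 (log log (16/δ)) / δ`, with these absolute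
constants. For `δ = log log r / log r` this is larger than `r ⌈r / log (1/δ)⌉` by a factor of order
`log log r / (log log log r)²`. So the factor `log r` of the known upper bound cannot be replaced by any function of smaller
order than this one.

The graphs are those of the library (`V1120.TC`, for covers by trees). There the lower bound was obtained for fixed `δ` and
`r ≥ r₀(δ)`; here all the error terms of the construction are bounded explicitly and uniformly.

The definitions (`IsMonoCycle`, `HasCyclePartition`, `cp`, `cpr`, `Q1`) are in `Pool/Agent/H25/CP/Cyc.lean`.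
-/

set_option autoImplicit false

open Filter Topology
open scoped ENNReal

namespace Pool.Agent.Results.MP_6df53f_co.UnboundedLoss

open Pool.Agent.H25.CP

/-- everything for one `r` in terms of `s = log log r`, `u = log log log r` -/
lemma at_r (r : ℕ) (s u : ℝ) (hs : s = Real.log (Real.log r)) (hu : u = Real.log s) (hr : 0 < Real.log (r : ℝ))
    (hs3 : 3 ≤ s) (hu1 : 1 ≤ u) (h : 3000 * u ≤ s) :
    0 < s / Real.log r ∧ s / Real.log r < 1 / 2 ∧
    0 < (r : ℝ) * ((⌈(r : ℝ) / Real.log (1 / (s / Real.log r))⌉ : ℤ) : ℝ) ∧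
    ENNReal.ofReal (1 / 51200 * (s / u ^ 2) *
      (r * ((⌈(r : ℝ) / Real.log (1 / (s / Real.log r))⌉ : ℤ) : ℝ))) ≤
        ((cpr r (s / Real.log r) : ℕ∞) : ℝ≥0∞) := by
  set t : ℝ := Real.log (r : ℝ) with ht
  have hs0 : 0 < s := by linarith
  have hts : t = Real.exp s := by rw [hs, Real.exp_log hr]
  have ht2 : 2 * s < t := by
    rw [hts]
    have h1 := Real.quadratic_le_exp_of_nonneg hs0.le
    nlinarith
  have hδ0 : 0 < s / t := by positivity
  have hδ1 : s / t < 1 / 2 := by
    rw [div_lt_iff₀ hr]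
    linarith
  have hlogδ : Real.log (1 / (s / t)) = s - u := by
    rw [one_div_div, Real.log_div hr.ne' hs0.ne', hu, ← hs]
  have hsu : s / 2 ≤ s - u := by linarith
  have hsu0 : 0 < s - u := by linarith
  have hrpos : (0 : ℝ) < r := by
    rcases Nat.eq_zero_or_pos r with h0 | h0
    · rw [ht, h0] at hr
      simp at hr
    · exact_mod_cast h0
  have htr : t ≤ r := by
    have := Real.log_le_sub_one_of_pos hrpos
    rw [← ht] at this
    linarith
  have hsr : s ≤ r := by linarith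
  refine ⟨hδ0, hδ1, ?_, ?_⟩
  · rw [hlogδ]
    apply mul_pos hrpos
    have : 0 < ⌈(r : ℝ) / (s - u)⌉ := Int.ceil_pos.mpr (by positivity)
    exact_mod_cast this
  · have hlog16 : Real.log 16 ≤ 2.7728 := by
      rw [show (16 : ℝ) = 2 ^ 4 by norm_num, Real.log_pow]
      have := Real.log_two_lt_d9
      push_cast
      linarith
    have hy : Real.log (16 / (s / t)) ≤ 2 * s := by
      have h1 : (16 : ℝ) / (s / t) = 16 * (1 / (s / t)) := by ring
      rw [h1, Real.log_mul (by norm_num) (by positivity), hlogδ]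
      linarith
    obtain ⟨hy3, hL1⟩ := one_le_L (s / t) hδ0 hδ1
    have hL : Real.log (Real.log (16 / (s / t))) ≤ 2 * u := by
      calc Real.log (Real.log (16 / (s / t))) ≤ Real.log (2 * s) := Real.log_le_log (by linarith) hy
        _ = Real.log 2 + u := by rw [Real.log_mul (by norm_num) hs0.ne', hu]
        _ ≤ 2 * u := by
          have := Real.log_two_lt_d9
          linarith
    have hcond : 1500 * (Real.log (Real.log (16 / (s / t))) / (s / t)) ≤ Real.log r := by
      rw [← ht, ← mul_div_assoc, div_le_iff₀ hδ0, mul_div_cancel₀ _ hr.ne']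
      linarith
    refine le_trans (ENNReal.ofReal_le_ofReal ?_) (cpr_lower r (s / t) hδ0 hδ1 hcond)
    rw [hlogδ]
    have hceil : ((⌈(r : ℝ) / (s - u)⌉ : ℤ) : ℝ) ≤ 4 * r / s := by
      have h1 : ((⌈(r : ℝ) / (s - u)⌉ : ℤ) : ℝ) < (r : ℝ) / (s - u) + 1 := Int.ceil_lt_add_one _
      have h2 : (r : ℝ) / (s - u) ≤ r / (s / 2) := div_le_div_of_nonneg_left hrpos.le (by linarith) hsu
      have h3 : (r : ℝ) / (s / 2) = 2 * r / s := by field_simp
      have h4 : (1 : ℝ) ≤ 2 * r / s := by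
        rw [le_div_iff₀ hs0]
        linarith
      have h5 : 4 * (r : ℝ) / s = 2 * r / s + 2 * r / s := by ring
      linarith
    have hu0 : 0 < u := by linarith
    calc 1 / 51200 * (s / u ^ 2) * (r * ((⌈(r : ℝ) / (s - u)⌉ : ℤ) : ℝ))
        ≤ 1 / 51200 * (s / u ^ 2) * (r * (4 * r / s)) := by
          apply mul_le_mul_of_nonneg_left _ (by positivity)
          exact mul_le_mul_of_nonneg_left hceil hrpos.le
      _ = (r : ℝ) ^ 2 / (3200 * (2 * u) ^ 2) := by
          field_simp
          ring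
      _ ≤ (r : ℝ) ^ 2 / (3200 * Real.log (Real.log (16 / (s / t))) ^ 2) := by
          apply div_le_div_of_nonneg_left (by positivity) (by positivity)
          apply mul_le_mul_of_nonneg_left _ (by norm_num)
          exact pow_le_pow_left₀ (by linarith) hL 2

lemma tendsto_s : Tendsto (fun r : ℕ => Real.log (Real.log (r : ℝ))) atTop atTop :=
  Real.tendsto_log_atTop.comp (Real.tendsto_log_atTop.comp tendsto_natCast_atTop_atTop)

lemma eventually_cond : ∀ᶠ r : ℕ in atTop, 0 < Real.log (r : ℝ) ∧ 3 ≤ Real.log (Real.log (r : ℝ)) ∧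
    1 ≤ Real.log (Real.log (Real.log (r : ℝ))) ∧
    3000 * Real.log (Real.log (Real.log (r : ℝ))) ≤ Real.log (Real.log (r : ℝ)) := by
  have h1 : ∀ᶠ s : ℝ in atTop, 3 ≤ s ∧ 1 ≤ Real.log s ∧ 3000 * Real.log s ≤ s := by
    have h2 := Real.isLittleO_log_id_atTop.bound (show (0 : ℝ) < 1 / 3000 by norm_num)
    filter_upwards [h2, eventually_ge_atTop (3 : ℝ)] with s hs hs3
    have hlog : 1 ≤ Real.log s := by
      rw [Real.le_log_iff_exp_le (by linarith)]
      have := Real.exp_one_lt_d9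
      linarith
    simp only [id, Real.norm_eq_abs] at hs
    rw [abs_of_nonneg (by linarith : (0 : ℝ) ≤ Real.log s), abs_of_nonneg (by linarith : (0 : ℝ) ≤ s)] at hs
    exact ⟨hs3, hlog, by linarith⟩
  have h3 : Tendsto (fun r : ℕ => Real.log (r : ℝ)) atTop atTop :=
    Real.tendsto_log_atTop.comp tendsto_natCast_atTop_atTop
  filter_upwards [tendsto_s.eventually h1, h3.eventually_gt_atTop 0] with r hr hr0
  exact ⟨hr0, hr⟩

/-- **Monochromatic cycle partitions: the loss is unbounded.**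
(1) `cp_r(δ) ≥ r² / (3200 (log log (16/δ))²)` for all `r ≥ 2` and `δ ∈ (0, 1/2)` with
`1500 (log log (16/δ)) / δ ≤ log r`.
(2) For all large `r` and `δ = log log r / log r` one has
`cp_r(δ) ≥ (1/51200) (log log r / (log log log r)²) · r ⌈r / log (1/δ)⌉`.
(3) Let `φ(r) = o(log log r / (log log log r)²)`. Then for all large `r` there is `δ ∈ (0, 1/2)` with
`cp_r(δ) > φ(r) r ⌈r / log (1/δ)⌉`.
(4) The answer to Q1 is no: there is no `K` with `cp_r(δ) ≤ K r ⌈r / log (1/δ)⌉` for all `r ≥ 2` and `δ ∈ (0, 1/2)`. -/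
theorem result :
    (∀ r : ℕ, 2 ≤ r → ∀ δ : ℝ, 0 < δ → δ < 1 / 2 →
      1500 * (Real.log (Real.log (16 / δ)) / δ) ≤ Real.log r →
      ENNReal.ofReal ((r : ℝ) ^ 2 / (3200 * Real.log (Real.log (16 / δ)) ^ 2)) ≤ ((cpr r δ : ℕ∞) : ℝ≥0∞)) ∧
    (∀ᶠ r : ℕ in atTop, ∀ δ : ℝ, δ = Real.log (Real.log r) / Real.log r → 0 < δ ∧ δ < 1 / 2 ∧
      ENNReal.ofReal (1 / 51200 * (Real.log (Real.log r) / Real.log (Real.log (Real.log r)) ^ 2) *
        (r * ((⌈(r : ℝ) / Real.log (1 / δ)⌉ : ℤ) : ℝ))) ≤ ((cpr r δ : ℕ∞) : ℝ≥0∞)) ∧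
    (∀ φ : ℕ → ℝ, φ =o[atTop] (fun r : ℕ => Real.log (Real.log (r : ℝ)) / Real.log (Real.log (Real.log (r : ℝ))) ^ 2) →
      ∀ᶠ r : ℕ in atTop, ∃ δ : ℝ, 0 < δ ∧ δ < 1 / 2 ∧
        ENNReal.ofReal (φ r * (r * ((⌈(r : ℝ) / Real.log (1 / δ)⌉ : ℤ) : ℝ))) < ((cpr r δ : ℕ∞) : ℝ≥0∞)) ∧
    ¬ Q1 := by
  have h3 : ∀ φ : ℕ → ℝ,
      φ =o[atTop] (fun r : ℕ => Real.log (Real.log (r : ℝ)) / Real.log (Real.log (Real.log (r : ℝ))) ^ 2) →
      ∀ᶠ r : ℕ in atTop, ∃ δ : ℝ, 0 < δ ∧ δ < 1 / 2 ∧
        ENNReal.ofReal (φ r * (r * ((⌈(r : ℝ) / Real.log (1 / δ)⌉ : ℤ) : ℝ))) < ((cpr r δ : ℕ∞) : ℝ≥0∞) := by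
    intro φ hφ
    have h4 := hφ.bound (show (0 : ℝ) < 1 / 102400 by norm_num)
    filter_upwards [h4, eventually_cond] with r hr hc
    obtain ⟨c1, c2, c3, c4⟩ := hc
    obtain ⟨g1, g2, g3, g4⟩ := at_r r _ _ rfl rfl c1 c2 c3 c4
    refine ⟨_, g1, g2, lt_of_lt_of_le ?_ g4⟩
    have h5 : (0 : ℝ) < Real.log (Real.log (r : ℝ)) / Real.log (Real.log (Real.log (r : ℝ))) ^ 2 := by
      apply div_pos (by linarith)
      have : (0 : ℝ) < Real.log (Real.log (Real.log (r : ℝ))) := by linarith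
      positivity
    rw [Real.norm_eq_abs, Real.norm_eq_abs, abs_of_pos h5] at hr
    have h6 : φ r < 1 / 51200 * (Real.log (Real.log (r : ℝ)) / Real.log (Real.log (Real.log (r : ℝ))) ^ 2) := by
      have := le_abs_self (φ r)
      linarith
    apply (ENNReal.ofReal_lt_ofReal_iff (by positivity)).mpr
    exact mul_lt_mul_of_pos_right h6 g3
  refine ⟨fun r _ δ h0 h1 hr => cpr_lower r δ h0 h1 hr, ?_, h3, ?_⟩
  · filter_upwards [eventually_cond] with r hc δ hδ
    obtain ⟨c1, c2, c3, c4⟩ := hc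
    obtain ⟨g1, g2, -, g4⟩ := at_r r _ _ rfl rfl c1 c2 c3 c4
    subst hδ
    exact ⟨g1, g2, g4⟩
  · rintro ⟨K, hK, hQ⟩
    have h4 : (fun _ : ℕ => K) =o[atTop]
        (fun r : ℕ => Real.log (Real.log (r : ℝ)) / Real.log (Real.log (Real.log (r : ℝ))) ^ 2) := by
      have h5 : Tendsto (fun s : ℝ => s / Real.log s ^ 2) atTop atTop := by
        have h6 : Tendsto (fun s : ℝ => Real.log s ^ 2 / s) atTop (𝓝 0) := by
          have := (Real.isLittleO_pow_log_id_atTop (n := 2)).tendsto_div_nhds_zero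
          simpa using this
        have h7 : Tendsto (fun s : ℝ => Real.log s ^ 2 / s) atTop (𝓝[>] 0) := by
          rw [tendsto_nhdsWithin_iff]
          refine ⟨h6, ?_⟩
          filter_upwards [eventually_gt_atTop (1 : ℝ)] with s hs
          have : 0 < Real.log s := Real.log_pos hs
          have h8 : (0 : ℝ) < s := by linarith
          exact Set.mem_Ioi.mpr (by positivity)
        have h9 := h7.inv_tendsto_nhdsGT_zero
        refine h9.congr fun s => ?_
        simp
      exact (Asymptotics.isLittleO_const_left_of_ne hK.ne').mpr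
        (tendsto_norm_atTop_atTop.comp (h5.comp tendsto_s))
    obtain ⟨r, hr, hr2⟩ := ((h3 _ h4).and (eventually_ge_atTop 2)).exists
    obtain ⟨δ, g1, g2, g3⟩ := hr
    exact absurd (hQ r hr2 δ g1 g2) (not_le.mpr g3)

end Pool.Agent.Results.MP_6df53f_co.UnboundedLoss
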